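import Pool.Agent.H.MP_43e44c_ag.PE.Main
import Pool.Agent.H.MP_43e44c_ag.PE.Nz

/-!
Hodge classes on the powers of abelian varieties whose endomorphism algebra is a CM field.
-/

set_option autoImplicit false

open NumberField Module Pool.MP43e44c

namespace Pool.Agent.H.MP_43e44c_ag.Old.CoprimeSignature

/-- Let `A = E/Λ` be a polarised complex torus with `End(A) ⊗ ℚ = K` (via `ι`), `K` any CM field, and let `m τ` be
the multiplicity of the embedding `τ` of `K` in the tangent space `E`; `m τ + m (conj τ) = 2 dim A / [K : ℚ]`.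
`HodgeByDivisors` abbreviates: for all `k` and `p` every rational Hodge class of degree `2p` on `A^k` is a rational
combination of products of divisor classes.  The multiplicities are nondegenerate if the functions
`τ ↦ m (σ τ) - m (conj (σ τ))`, `σ` an automorphism of `ℂ`, span all odd functions.  A place is definite if one of
its two multiplicities is zero.

(0) If `A` is not zero, `HodgeByDivisors` implies that the multiplicities are nondegenerate.

Suppose from now on that `m τ` and `m (conj τ)` are coprime for some `τ`.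
(1) If any two embeddings `τ, t` at different places have translates `σ τ, σ t` with different multiplicities and
not both at definite places, then `HodgeByDivisors` holds if and only if the multiplicities are nondegenerate.
(2) The same equivalence holds if all `m τ` are positive (no definite place).
(3) `HodgeByDivisors` holds if for some `τ₀` and some integer `d` the difference `m τ - m (conj τ)` is divisible by `d`
for all `τ ≠ τ₀, conj τ₀` but not for `τ = τ₀`.
(4) `HodgeByDivisors` holds if exactly one place, that of `τ₀`, is not definite and `m τ₀ ≠ m (conj τ₀)`. -/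
theorem result.{u, v} {K : Type u} [Field K] [NumberField K] [IsCMField K]
    {E : Type v} [AddCommGroup E] [Module ℂ E] [Module ℝ E] [IsScalarTower ℝ ℂ E]
    {Λ : AddSubgroup E} {ι : K →+* Module.End ℂ E} (h : HasEndK Λ ι) :
    ((∃ x : E, x ≠ 0) → (∀ k p : ℕ, GeneratedByDivisors (powLattice Λ k) p) → NondegMult (mult ι)) ∧
    ((∃ τ, Nat.Coprime (mult ι τ) (mult ι (ComplexEmbedding.conjugate τ))) →
      ((∀ τ t : K →+* ℂ, t ≠ τ → t ≠ ComplexEmbedding.conjugate τ → ∃ σ : ℂ ≃+* ℂ,
          mult ι ((σ : ℂ →+* ℂ).comp τ) ≠ mult ι ((σ : ℂ →+* ℂ).comp t) ∧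
          ¬ (mult ι ((σ : ℂ →+* ℂ).comp τ) *
                mult ι (ComplexEmbedding.conjugate ((σ : ℂ →+* ℂ).comp τ)) = 0 ∧
            mult ι ((σ : ℂ →+* ℂ).comp t) *
                mult ι (ComplexEmbedding.conjugate ((σ : ℂ →+* ℂ).comp t)) = 0)) →
        ((∀ k p : ℕ, GeneratedByDivisors (powLattice Λ k) p) ↔ NondegMult (mult ι))) ∧
      ((∀ τ, 0 < mult ι τ) →
        ((∀ k p : ℕ, GeneratedByDivisors (powLattice Λ k) p) ↔ NondegMult (mult ι))) ∧
      (∀ (τ₀ : K →+* ℂ) (d : ℤ),
        (∀ τ, τ ≠ τ₀ → τ ≠ ComplexEmbedding.conjugate τ₀ →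
          d ∣ (mult ι τ : ℤ) - mult ι (ComplexEmbedding.conjugate τ)) →
        ¬ d ∣ (mult ι τ₀ : ℤ) - mult ι (ComplexEmbedding.conjugate τ₀) →
        ∀ k p : ℕ, GeneratedByDivisors (powLattice Λ k) p) ∧
      (∀ τ₀ : K →+* ℂ, 0 < mult ι τ₀ → 0 < mult ι (ComplexEmbedding.conjugate τ₀) →
        mult ι τ₀ ≠ mult ι (ComplexEmbedding.conjugate τ₀) →
        (∀ τ, τ ≠ τ₀ → τ ≠ ComplexEmbedding.conjugate τ₀ →
          mult ι τ = 0 ∨ mult ι (ComplexEmbedding.conjugate τ) = 0) →
        ∀ k p : ℕ, GeneratedByDivisors (powLattice Λ k) p)) := by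
  have hconv : (∃ τ, mult ι τ ≠ 0) → (∀ k p : ℕ, GeneratedByDivisors (powLattice Λ k) p) →
      NondegMult (mult ι) := by
    intro h0 hg
    by_contra hnd
    obtain ⟨k, p, hkp⟩ := PE.conv h h0 hnd
    exact hkp (hg k p)
  refine ⟨fun hE hg => hconv (PE.exists_mult_ne_zero h hE) hg, ?_⟩
  rintro ⟨τ₁, hτ₁⟩
  have h0 : ∃ τ, mult ι τ ≠ 0 := by
    by_contra h0
    push Not at h0
    rw [h0, h0] at hτ₁
    exact absurd hτ₁ (by decide)
  refine ⟨fun hs => ⟨hconv h0, fun hn => PE.main h ⟨τ₁, hτ₁⟩ hn hs⟩,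
    fun hp => ⟨hconv h0, fun hn => PE.main_indef h ⟨τ₁, hτ₁⟩ hn hp⟩,
    fun τ₀ d h2 h3 => PE.main_dvd h ⟨τ₁, hτ₁⟩ τ₀ d h2 h3,
    fun τ₀ hp hp' hne h3 => PE.main_one h τ₀ hp hp' ?_ hne h3⟩
  have hsum := PE.mult_add_mult h τ₁ τ₀
  by_cases e1 : τ₁ = τ₀
  · rw [← e1]; exact hτ₁
  · by_cases e2 : τ₁ = ComplexEmbedding.conjugate τ₀
    · have e3 : ComplexEmbedding.conjugate τ₁ = τ₀ := by
        rw [e2]; exact PE.cj_cj τ₀
      rw [e3, e2] at hτ₁
      exact hτ₁.symm
    · exfalso
      rcases h3 τ₁ e1 e2 with h4 | h4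
      · rw [h4, Nat.coprime_zero_left] at hτ₁
        omega
      · rw [h4, Nat.coprime_zero_right] at hτ₁
        omega

end Pool.Agent.H.MP_43e44c_ag.Old.CoprimeSignature
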