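import Pool.Agent.H.MP_43e44c_ag.IR.Four
import Pool.Agent.H.MP_43e44c_ag.IR.Crits
import Pool.Agent.H.MP_43e44c_ag.IR.Dim
import Pool.Agent.H.MP_43e44c_ag.IR.Nec
import Pool.Agent.H.MP_43e44c_ag.IR.ExMain

/-!
The CM fields `K` such that the Hodge classes on the powers of all abelian varieties with endomorphism algebra `K`
and with coprime multiplicities are generated by divisors.
-/

set_option autoImplicit false

open NumberField Module Pool.MP43e44c

namespace Pool.Agent.H.MP_43e44c_ag.Old.GenericFields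

/-- Let `K` be a CM field.  For a polarised complex torus `A = E/Λ` with `End(A) ⊗ ℚ = K` (via `ι`) let `m τ` be the
multiplicity of the embedding `τ` of `K` in `E`.  `OddIrreducible K`: the odd rational functions on the set
of embeddings of `K` form an irreducible representation of `Aut ℂ`.

`OddIrreducible K` holds if and only if for all `A` with `m τ`, `m (conj τ)` coprime and different for one `τ`, and for
all `A` for which `2 dim A / [K : ℚ]` is one or an odd prime (with no condition on `m`), for all `k` and `p` every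
rational Hodge class of degree `2p` on `A^k` is a rational combination of products of divisor classes.

`OddIrreducible K` holds if `K` is quartic and not biquadratic; if `K` is cyclic over `ℚ` of degree a power
of two; and if `K = F(a)`, `F` the maximal real subfield, `conj a = -a`, such that for any `τ, t` at different places
`τ(a²) t(a²)` is not a square in the compositum of `τ(F)` and `t(F)`. -/
theorem result.{u} {K : Type u} [Field K] [NumberField K] [IsCMField K] :
    (OddIrreducible K ↔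
      ∀ (E : Type u) [AddCommGroup E] [Module ℂ E] [Module ℝ E] [IsScalarTower ℝ ℂ E]
        (Λ : AddSubgroup E) (ι : K →+* Module.End ℂ E), HasEndK Λ ι →
        ((∃ τ, Nat.Coprime (mult ι τ) (mult ι (ComplexEmbedding.conjugate τ)) ∧
            mult ι τ ≠ mult ι (ComplexEmbedding.conjugate τ)) ∨
          ∃ N : ℕ, 2 * finrank ℂ E = N * finrank ℚ K ∧ (N = 1 ∨ N.Prime ∧ N ≠ 2)) →
        ∀ k p : ℕ, GeneratedByDivisors (powLattice Λ k) p) ∧
    ((finrank ℚ K = 4 ∧ ¬ (IsGalois ℚ K ∧ IsKleinFour (K ≃ₐ[ℚ] K))) ∨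
      (IsGalois ℚ K ∧ IsCyclic (K ≃ₐ[ℚ] K) ∧ ∃ r : ℕ, finrank ℚ K = 2 ^ r) ∨
      (∃ a : K, IsCMField.complexConj K a = -a ∧
        ∀ τ t : K →+* ℂ, t ≠ τ → t ≠ ComplexEmbedding.conjugate τ →
          ∀ x ∈ (maximalRealSubfield K).map τ ⊔ (maximalRealSubfield K).map t,
            x ^ 2 ≠ τ (a ^ 2) * t (a ^ 2)) → OddIrreducible K) := by
  refine ⟨⟨fun hK => ?_, fun h => ?_⟩, ?_⟩
  · intro E _ _ _ _ Λ ι h hm
    have h1 : ∃ τ, Nat.Coprime (mult ι τ) (mult ι (ComplexEmbedding.conjugate τ)) ∧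
        mult ι τ ≠ mult ι (ComplexEmbedding.conjugate τ) := by
      rcases hm with hm | ⟨N, hN, hp⟩
      · exact hm
      · exact IR.exists_coprime h hN hp
    obtain ⟨τ, h2, h3⟩ := h1
    exact (IR.main_sub (IR.sub_of_irr hK) h h2 h3).2 (IR.mult_nd_irr hK h3)
  · by_contra hK
    obtain ⟨m, hm, hp, hc, hn⟩ := IR.exists_deg hK
    obtain ⟨I, _, Λ, ι, hE, e⟩ := IR.exists_tor hm hp
    subst e
    obtain ⟨τ, hτ⟩ := hc
    obtain ⟨k, p, hkp⟩ := PE.conv hE
      ⟨τ, fun h0 => by have := hp τ; omega⟩ hn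
    exact hkp (h (I → ℂ) Λ ι hE (Or.inl ⟨τ, hτ⟩) k p)
  · rintro (⟨h4, h5⟩ | ⟨h4, h5, r, hr⟩ | ⟨a, ha, h⟩)
    · exact IR.irr_of_mixed (IR.mixed_of_quartic h4 h5)
    · exact IR.irr_of_cyclic hr
    · exact IR.irr_of_mixed (IR.mixed_of_nonsquare ha h)

end Pool.Agent.H.MP_43e44c_ag.Old.GenericFields
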